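import Pool.Agent.Helper305_BW.Base

/-!
# The numbers `e ^ (R(e))` for Moebius transformations `R` with rational coefficients

Let `u` be a transcendental number such that `e` is algebraic over `ℚ(u)`, for instance `u = e`. We
consider the numbers `e ^ (R(u))`, where `R(x) = (a x + b) / (c x + d)` with rational `a`, `b`, `c`, `d`
and `a d - b c ≠ 0`. The number `e ^ e` is the case `u = e`, `R(x) = x`. We call `R` exceptional if
`e ^ (R(u))` is algebraic.

(1) Two exceptional `R` with the same zero are rational multiples of each other, and the same holds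
for two exceptional `R` with the same pole.

(2) The `R` for which `e ^ (R(u))` is algebraic over `ℚ(u)` have at most two different poles.

(3) Among any three exceptional `R` two are rational multiples of each other.

(4) In particular (zero at `0`) at most one of the numbers `e ^ (e / (1 + c e))`, `c` rational, is
algebraic; `e ^ e` is the number for `c = 0`.

The proof uses the theorem of Brownawell and Waldschmidt (`Pool.Agent.W252.bw`) and Gel'fond's theorem
(`Pool.Agent.W252.gelG32`), both from the starting files: for equal zeros, `R(u) = N / L` and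
`R'(u) = N / L'`, for the pairs `N / L, N / L'` and `1, L / N`, where `L / L'` is a combination of `1`
and `N / L'`; for three poles for the triple `1, R'(u), R''(u)` and the pair `1, R(u)`, where `R R'` is
a combination of `1`, `R`, `R'`.
-/

set_option autoImplicit false

namespace Pool.Agent.Results.MP_58ae59_nt.MoebiusExponents

open Complex Pool.Agent.Helper305_BW

/-- the value at `u` of the transformation `(a x + b) / (c x + d)` -/
noncomputable def mob (u : ℂ) (a b c d : ℚ) : ℂ := ((a : ℂ) * u + b) / (c * u + d)

/-- **Main result.** See the text at the beginning of the file. -/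
theorem result :
    (∀ u : ℂ, Transcendental ℚ u → IsAlgebraic (IntermediateField.adjoin ℚ {u}) (exp 1) →
      -- (1) equal zeros
      (∀ a b c d c' d' : ℚ, a * d - b * c ≠ 0 → a * d' - b * c' ≠ 0 →
        IsAlgebraic ℚ (exp (mob u a b c d)) → IsAlgebraic ℚ (exp (mob u a b c' d')) →
        c * d' = c' * d) ∧
      -- (1) equal poles
      (∀ a b a' b' c d : ℚ, a * d - b * c ≠ 0 → a' * d - b' * c ≠ 0 →
        IsAlgebraic ℚ (exp (mob u a b c d)) → IsAlgebraic ℚ (exp (mob u a' b' c d)) →
        a * b' = a' * b) ∧
      -- (2) at most two poles for values algebraic over `ℚ(u)`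
      (∀ a b c d : Fin 3 → ℚ, (∀ i, a i * d i - b i * c i ≠ 0) →
        (∀ i, IsAlgebraic (IntermediateField.adjoin ℚ {u}) (exp (mob u (a i) (b i) (c i) (d i)))) →
        ∃ i j, i ≠ j ∧ c i * d j = c j * d i) ∧
      -- (3) at most two algebraic values up to rational exponents
      (∀ a b c d : Fin 3 → ℚ, (∀ i, a i * d i - b i * c i ≠ 0) →
        (∀ i, IsAlgebraic ℚ (exp (mob u (a i) (b i) (c i) (d i)))) →
        ∃ i j, i ≠ j ∧ ∃ q : ℚ,
          mob u (a i) (b i) (c i) (d i) = q * mob u (a j) (b j) (c j) (d j))) ∧
    -- (4) the family `e ^ (e / (1 + c e))`, which contains `e ^ e`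
    (∀ c c' : ℚ, IsAlgebraic ℚ (Real.exp (Real.exp 1 / (1 + c * Real.exp 1))) →
      IsAlgebraic ℚ (Real.exp (Real.exp 1 / (1 + c' * Real.exp 1))) → c = c') := by
  have poles : ∀ u : ℂ, Transcendental ℚ u → AlgOver u (exp 1) →
      ∀ a b c d : Fin 3 → ℚ, (∀ i, a i * d i - b i * c i ≠ 0) →
        (∀ i, AlgOver u (exp (R u (a i) (b i) (c i) (d i)))) →
        ∃ i j, i ≠ j ∧ c i * d j = c j * d i := by
    intro u hu he a b c d hdet hal
    by_contra hcon
    push Not at hcon
    exact three_poles hu he (hdet 0) (hdet 1) (hdet 2) (hal 0) (hal 1) (hal 2)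
      (sub_ne_zero.2 (hcon 0 1 (by decide))) (sub_ne_zero.2 (hcon 0 2 (by decide)))
      (sub_ne_zero.2 (hcon 1 2 (by decide)))
  refine ⟨?_, ?_⟩
  · intro u hu he
    refine ⟨fun a b c d c' d' h h' e₁ e₂ => same_zero hu he h h' e₁ e₂,
      fun a b a' b' c d h _ e₁ e₂ => same_pole hu h e₁ e₂, poles u hu he, ?_⟩
    intro a b c d hdet hal
    obtain ⟨i, j, hij, hp⟩ := poles u hu he a b c d hdet (fun i => AlgOver.of_alg (hal i))
    refine ⟨i, j, hij, ?_⟩
    -- equal poles: the denominators are proportional
    have hdi := hdet i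
    have hdj := hdet j
    obtain ⟨κ, hκ0, hc, hd⟩ : ∃ κ : ℚ, κ ≠ 0 ∧ c j = κ * c i ∧ d j = κ * d i := by
      by_cases h0 : c i = 0
      · have hd0 : d i ≠ 0 := by
          intro h; apply hdi; rw [h0, h]; ring
        have hcj : c j = 0 := by
          have : c j * d i = 0 := by rw [← hp, h0]; ring
          exact (mul_eq_zero.1 this).resolve_right hd0
        refine ⟨d j / d i, ?_, ?_, ?_⟩
        · intro h
          rw [div_eq_zero_iff] at h
          rcases h with h | h
          · apply hdj; rw [hcj, h]; ring
          · exact hd0 h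
        · rw [hcj, h0]; ring
        · field_simp
      · refine ⟨c j / c i, ?_, ?_, ?_⟩
        · intro h
          rw [div_eq_zero_iff] at h
          rcases h with h | h
          · have hdj0 : d j = 0 := by
              have : c i * d j = 0 := by rw [hp, h]; ring
              exact (mul_eq_zero.1 this).resolve_left h0
            apply hdj; rw [h, hdj0]; ring
          · exact h0 h
        · field_simp
        · field_simp
          linear_combination hp
    have hκC : (κ : ℂ) ≠ 0 := by exact_mod_cast hκ0
    have hRj : R u (a j) (b j) (c j) (d j) = R u (a j / κ) (b j / κ) (c i) (d i) := by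
      have hL := (lin_ne hu (hdet i)).1
      have hL' := (lin_ne hu (hdet j)).1
      have e : (c j : ℂ) * u + d j = κ * (c i * u + d i) := by
        rw [hc, hd]; push_cast; ring
      unfold R
      rw [e]
      push_cast
      rw [div_eq_div_iff (mul_ne_zero hκC hL) hL]
      have hk : (κ : ℂ) * (κ : ℂ)⁻¹ = 1 := mul_inv_cancel₀ hκC
      rw [div_eq_mul_inv, div_eq_mul_inv]
      linear_combination (-((a j : ℂ) * u + b j) * (c i * u + d i)) * hk
    have hprop := same_pole hu (hdet i) (hal i) (by rw [← hRj]; exact hal j)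
    -- the numerators are proportional
    have hprop' : a i * b j = a j * b i := by
      have h3 : a i * (b j / κ) * κ = a j / κ * b i * κ := by rw [hprop]
      field_simp at h3
      linear_combination h3
    have hL := (lin_ne hu (hdet i)).1
    have hN := (lin_ne hu (hdet i)).2
    have hL' := (lin_ne hu (hdet j)).1
    have hN' := (lin_ne hu (hdet j)).2
    have hx : R u (a i) (b i) (c i) (d i) * (c i * u + d i) = a i * u + b i := R_den hL
    have hy : R u (a j) (b j) (c j) (d j) * (c j * u + d j) = a j * u + b j := R_den hL'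
    have hpC : (a i : ℂ) * b j = a j * b i := by exact_mod_cast hprop'
    by_cases ha : a j = 0
    · have hbj : b j ≠ 0 := by
        intro h; apply hdj; rw [ha, h]; ring
      have hai : a i = 0 := by
        have : a i * b j = 0 := by rw [hprop', ha]; ring
        exact (mul_eq_zero.1 this).resolve_right hbj
      have hbjC : (b j : ℂ) ≠ 0 := by exact_mod_cast hbj
      refine ⟨κ * (b i / b j), ?_⟩
      show R u (a i) (b i) (c i) (d i) =
        ((κ * (b i / b j) : ℚ) : ℂ) * R u (a j) (b j) (c j) (d j)
      apply mul_right_cancel₀ hL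
      rw [hx, hai]
      have e : (c i : ℂ) * u + d i = (κ : ℂ)⁻¹ * (c j * u + d j) := by
        rw [hc, hd]; push_cast; field_simp
      rw [ha] at hy
      rw [e]
      have h5 : (((κ * (b i / b j) : ℚ) : ℂ) * R u (a j) (b j) (c j) (d j)) *
          ((κ : ℂ)⁻¹ * (c j * u + d j)) =
          (((κ * (b i / b j) : ℚ) : ℂ) * (κ : ℂ)⁻¹) * (R u (a j) (b j) (c j) (d j) *
          (c j * u + d j)) := by ring
      rw [h5, ha, hy]
      push_cast
      field_simp
      ring
    · have haC : (a j : ℂ) ≠ 0 := by exact_mod_cast ha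
      refine ⟨κ * (a i / a j), ?_⟩
      show R u (a i) (b i) (c i) (d i) =
        ((κ * (a i / a j) : ℚ) : ℂ) * R u (a j) (b j) (c j) (d j)
      apply mul_right_cancel₀ hL
      rw [hx]
      have e : (c i : ℂ) * u + d i = (κ : ℂ)⁻¹ * (c j * u + d j) := by
        rw [hc, hd]; push_cast; field_simp
      rw [e]
      have h5 : (((κ * (a i / a j) : ℚ) : ℂ) * R u (a j) (b j) (c j) (d j)) *
          ((κ : ℂ)⁻¹ * (c j * u + d j)) =
          (((κ * (a i / a j) : ℚ) : ℂ) * (κ : ℂ)⁻¹) * (R u (a j) (b j) (c j) (d j) *
          (c j * u + d j)) := by ring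
      rw [h5, hy]
      push_cast
      field_simp
      linear_combination -hpC
  · intro c c' h1 h2
    have e₁ : IsAlgebraic ℚ (exp (R (((Real.exp 1 : ℝ)) : ℂ) 1 0 c 1)) := by
      apply real_R
      have : (((1 : ℚ) : ℝ) * Real.exp 1 + ((0 : ℚ) : ℝ)) / ((c : ℝ) * Real.exp 1 + ((1 : ℚ) : ℝ)) =
          Real.exp 1 / (1 + c * Real.exp 1) := by push_cast; ring_nf
      rw [this]; exact h1
    have e₂ : IsAlgebraic ℚ (exp (R (((Real.exp 1 : ℝ)) : ℂ) 1 0 c' 1)) := by
      apply real_R
      have : (((1 : ℚ) : ℝ) * Real.exp 1 + ((0 : ℚ) : ℝ)) / ((c' : ℝ) * Real.exp 1 + ((1 : ℚ) : ℝ)) =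
          Real.exp 1 / (1 + c' * Real.exp 1) := by push_cast; ring_nf
      rw [this]; exact h2
    have := same_zero E_tr E_al (a := 1) (b := 0) (c := c) (d := 1) (c' := c') (d' := 1)
      (by norm_num) (by norm_num) e₁ e₂
    linarith

end Pool.Agent.Results.MP_58ae59_nt.MoebiusExponents
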