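import Pool.Agent.Helper305_BW.Base

/-!
# The numbers `e ^ (e ^ r)`: the exceptional exponents form a sum-free Sidon set

Let `β`, `ρ` be nonzero algebraic numbers and let `A` be the set of all rational numbers `r` for which
`e ^ (β e ^ (ρ r))` is algebraic. For `β = ρ = 1` this is the family of the numbers `e ^ (e ^ r)`, and
`e ^ e` is its member `r = 1`.

(1) If `r ≠ s` are in `A` and `t ≠ 0` is rational, then one of the numbers `e ^ (β e ^ (ρ (r + t)))`,
`e ^ (β e ^ (ρ (s + t)))` is transcendental over `ℚ(e ^ ρ)`.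

(2) So `A` is a Sidon set (no nontrivial `a + b = c + d` in `A`), and the number `k` of the integers
between `1` and `N` in `A` satisfies `k (k - 1) ≤ 2 (N - 1)`.

(3) For `β = ρ = 1` the set `A` is also sum-free: for nonzero rational `r`, `s` one of the numbers
`e ^ (e ^ r)`, `e ^ (e ^ s)`, `e ^ (e ^ (r + s))` is transcendental (`r = s = 1` is the classical case).
If `k` of the numbers `e ^ (e ^ n)`, `1 ≤ n ≤ N`, are algebraic, then `k (k + 1) ≤ 2 N`; for instance
at least three of `e ^ e`, `e ^ (e ^ 2)`, …, `e ^ (e ^ 5)` are transcendental.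

The proof uses the theorem of Brownawell and Waldschmidt (`Pool.Agent.W252.bw` of the starting files)
for the pairs `β e ^ (ρ r), β e ^ (ρ s)` and `1, e ^ (ρ t)`.
-/

set_option autoImplicit false

namespace Pool.Agent.Results.MP_58ae59_nt.SumFreeSidonSet

open Pool.Agent.Helper305_BW

/-- **Main result.** See the text at the beginning of the file. -/
theorem result :
    (∀ β ρ : ℂ, IsAlgebraic ℚ β → β ≠ 0 → IsAlgebraic ℚ ρ → ρ ≠ 0 →
      -- (1) shifts
      (∀ r s t : ℚ, r ≠ s → t ≠ 0 →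
        IsAlgebraic ℚ (Complex.exp (β * Complex.exp (r * ρ))) →
        IsAlgebraic ℚ (Complex.exp (β * Complex.exp (s * ρ))) →
        ¬ (IsAlgebraic (IntermediateField.adjoin ℚ {Complex.exp ρ})
            (Complex.exp (β * Complex.exp (((r + t : ℚ) : ℂ) * ρ))) ∧
          IsAlgebraic (IntermediateField.adjoin ℚ {Complex.exp ρ})
            (Complex.exp (β * Complex.exp (((s + t : ℚ) : ℂ) * ρ))))) ∧
      -- (2) Sidon set
      (∀ a b c d : ℚ, IsAlgebraic ℚ (Complex.exp (β * Complex.exp (a * ρ))) →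
        IsAlgebraic ℚ (Complex.exp (β * Complex.exp (b * ρ))) →
        IsAlgebraic ℚ (Complex.exp (β * Complex.exp (c * ρ))) →
        IsAlgebraic ℚ (Complex.exp (β * Complex.exp (d * ρ))) → a + b = c + d →
        (a = c ∧ b = d) ∨ (a = d ∧ b = c)) ∧
      ∀ (N : ℕ) (T : Finset ℕ), T ⊆ Finset.Icc 1 N →
        (∀ n ∈ T, IsAlgebraic ℚ (Complex.exp (β * Complex.exp (n * ρ)))) →
        T.card * (T.card - 1) ≤ 2 * (N - 1)) ∧
    -- (3) the numbers `e ^ (e ^ r)`
    (∀ r s : ℚ, r ≠ 0 → s ≠ 0 →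
      Transcendental ℚ (Real.exp (Real.exp r)) ∨ Transcendental ℚ (Real.exp (Real.exp s)) ∨
      Transcendental ℚ (Real.exp (Real.exp (r + s)))) ∧
    ∀ (N : ℕ) (T : Finset ℕ), T ⊆ Finset.Icc 1 N →
      (∀ n ∈ T, IsAlgebraic ℚ (Real.exp (Real.exp n))) → T.card * (T.card + 1) ≤ 2 * N := by
  refine ⟨?_, ?_, ?_⟩
  · intro β ρ hβ hβ0 hρ hρ0
    refine ⟨fun r s t hrs ht h1 h2 h3 => shift hβ hβ0 hρ hρ0 hrs ht h1 h2 h3.1 h3.2,
      fun a b c d ha hb hc hd h => sidon hβ hβ0 hρ hρ0 ha hb hc hd h, fun N T hT hal =>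
      count_num hβ hβ0 hρ hρ0 N T hT (fun n hn => ?_)⟩
    have := hal n hn
    unfold num
    push_cast
    exact this
  · intro r s hr hs
    by_contra hcon
    push Not at hcon
    obtain ⟨h1, h2, h3⟩ := hcon
    refine sumfree hr hs (num_of_tower (not_not.1 h1)) (num_of_tower (not_not.1 h2))
      (num_of_tower ?_)
    have := not_not.1 h3
    unfold tower
    push_cast
    exact this
  · intro N T hT hal
    refine count_tower N T hT (fun n hn => ?_)
    have := hal n hn
    unfold tower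
    push_cast
    exact this

end Pool.Agent.Results.MP_58ae59_nt.SumFreeSidonSet
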